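import Pool.Agent.helper32.PN.Spec

set_option autoImplicit false

/-! Row `pn:EVN`. -/

namespace Pool.Agent.PN

open Module Polynomial Pool.Agent.helper27.PC

theorem EVN_split : ∀ τ : List ℕ, (∃ a ∈ τ, Even a) →
    ∃ (τ₁ τ₂ : List ℕ) (c : ℕ), τ = τ₁ ++ c :: τ₂ ∧ Even c ∧ ∀ a ∈ τ₁, Odd a := by
  intro τ
  induction τ with
  | nil =>
    rintro ⟨a, ha, -⟩
    exact absurd ha (by simp)
  | cons a τ ih =>
    rintro ⟨b, hb, hbe⟩
    by_cases ha : Even a
    · exact ⟨[], τ, a, rfl, ha, by simp⟩
    · have hb' : b ∈ τ := by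
        rcases List.mem_cons.1 hb with rfl | h
        · exact absurd hbe ha
        · exact h
      obtain ⟨τ₁, τ₂, c, e, hc, h1⟩ := ih ⟨b, hb', hbe⟩
      refine ⟨a :: τ₁, τ₂, c, by rw [e]; rfl, hc, ?_⟩
      intro x hx
      rcases List.mem_cons.1 hx with rfl | h
      · exact Nat.not_even_iff_odd.1 ha
      · exact h1 x h

theorem EVN : EVN_stmt := by
  intro t τ hs h2 hev
  obtain ⟨τ₁, τ₂, c, e, hc, h1⟩ := EVN_split τ hev
  refine ⟨c + 3, fun k hk => ?_⟩
  set l : List ℕ := List.replicate k 1 ++ τ with hl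
  have hsum : l.sum = k + τ.sum := by
    rw [hl, List.sum_append, List.sum_replicate, smul_eq_mul, mul_one]
  have hpos : ∀ a ∈ l, 1 ≤ a := by
    intro a ha
    rcases List.mem_append.1 ha with h | h
    · rw [List.eq_of_mem_replicate h]
    · exact le_trans (by norm_num) (h2 a h)
  have hpw : l.Pairwise (· ≤ ·) := by
    rw [hl, List.pairwise_append]
    refine ⟨?_, hs, ?_⟩
    · exact List.pairwise_replicate.2 (Or.inr le_rfl)
    · intro a ha b hb
      rw [List.eq_of_mem_replicate ha]
      exact le_trans (by norm_num) (h2 b hb)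
  have hN : NegType t l := by
    left
    refine ⟨[], List.replicate k 1 ++ τ₁, τ₂, c, ?_, ?_, ?_, ?_, ?_, ?_⟩
    · rw [hl, e]
      simp
    · intro b hb
      have hbo : Odd b := by
        rcases List.mem_append.1 hb with h | h
        · rw [List.eq_of_mem_replicate h]
          exact odd_one
        · exact h1 b h
      exact ⟨by simpa using hbo.pos, hc.add_odd hbo⟩
    · unfold LeT
      rw [List.sum_append, List.sum_replicate, smul_eq_mul, mul_one]
      split_ifs <;> omega
    · rintro ⟨-, -, h, -⟩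
      rw [List.count_append, List.count_replicate_self] at h
      omega
    · rintro ⟨-, -, h, -⟩
      rw [List.count_append, List.count_replicate_self] at h
      omega
    · rintro ⟨-, h, -⟩
      exact absurd h (by simp)
  have hlt := NZH_neg DLu LAD R1u R2u LB LG (B1 DLu R1u R2u LA LB LG) B2 t (k + τ.sum) l hpos hpw hsum.le hN
  obtain ⟨e1, e2⟩ := EVu t (k + τ.sum) l 0 hpos hsum.le
  rw [pow_zero, Module.End.one_apply] at e1 e2
  rw [← e1, ← e2] at hlt
  obtain ⟨x, hx⟩ := exists_neg_of_lt _ hlt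
  refine ⟨x, ?_⟩
  unfold PU at hx
  rw [pow_zero, Module.End.one_apply] at hx
  exact hx

end Pool.Agent.PN
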